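import Pool.Agent.helper96.PP2.SpecA

/-!
# Row pg:E1R: degree one part of the long exact sequence
-/

namespace Pool.Agent.PP2

section E1R

variable {G : Type} [Group G]

/-- The coboundary map of degree zero. -/
def E1R_del (G : Type) [Group G] (A : Type) [AddCommGroup A] [DistribMulAction G A] :
    A →+ (G → A) where
  toFun m := fun g => g • m - m
  map_zero' := by
    funext g
    simp
  map_add' m n := by
    funext g
    simp only [Pi.add_apply, smul_add]
    abel

theorem E1R_range (A : Type) [AddCommGroup A] [DistribMulAction G A] :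
    (E1R_del G A).range = B1 G A := by
  ext f
  constructor
  · rintro ⟨m, rfl⟩
    exact ⟨m, fun g => rfl⟩
  · rintro ⟨m, hm⟩
    exact ⟨m, funext fun g => (hm g).symm⟩

theorem E1R_ker (A : Type) [AddCommGroup A] [DistribMulAction G A] :
    (E1R_del G A).ker = H0 G A := by
  ext m
  constructor
  · intro h g
    have h1 : (fun g : G => g • m - m) = 0 := h
    have h2 : g • m - m = 0 := congrFun h1 g
    exact sub_eq_zero.mp h2
  · intro h
    have h1 : ∀ g : G, g • m = m := h
    change (fun g : G => g • m - m) = 0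
    funext g
    rw [h1 g, sub_self]
    rfl

theorem E1R_card (A : Type) [AddCommGroup A] [DistribMulAction G A] :
    Nat.card (B1 G A) * h0 G A = Nat.card A := by
  rw [← E1R_range, h0, ← E1R_ker]
  have h1 := AddSubgroup.card_mul_index (E1R_del G A).ker
  rw [AddSubgroup.index_ker] at h1
  rw [mul_comm]
  exact h1

theorem E1R_row : E1R_stmt := by
  intro p G _ _ _ _ A' A _ _ _ _ i φ hp hfin hsm hi hφ hig hφg hker
  have hfin' : Finite A' := Finite.of_injective i hi
  have hFp : B1 G (Fp p) = ⊥ := by
    rw [eq_bot_iff]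
    rintro f ⟨m, hm⟩
    rw [AddSubgroup.mem_bot]
    funext g
    rw [hm g]
    exact sub_self m
  have hZB : B1 G (Fp p) ≤ Z1 G (Fp p) := by
    rw [hFp]
    exact bot_le
  have hmapZ : (Z1 G A).map (φ.compLeft G) ≤ Z1 G (Fp p) := by
    rintro _ ⟨f, ⟨hf1, hf2⟩, rfl⟩
    refine ⟨hf1.comp φ, fun a b => ?_⟩
    have h1 := congrArg φ (hf2 a b)
    simp only [d1, map_add, map_sub, map_zero] at h1
    change (φ.compLeft G f) b - (φ.compLeft G f) (a * b) + (φ.compLeft G f) a = 0
    simp only [AddMonoidHom.compLeft_apply, Function.comp_apply]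
    rw [← h1, hφg]
  refine ⟨?_, ?_⟩
  swap
  · rw [h1, hFp, ← AddSubgroup.relIndex_mul_relIndex ⊥ _ _ bot_le hmapZ,
      AddSubgroup.relIndex_bot_left]
  -- injectivity of composition with `i`
  have hI : Function.Injective (i.compLeft G) := by
    intro f g h
    funext x
    exact hi (congrFun h x)
  -- the kernel of composition with `φ` on cocycles
  have hkerZ : (φ.compLeft G).ker ⊓ Z1 G A = (Z1 G A').map (i.compLeft G) := by
    ext f
    constructor
    · rintro ⟨hf0, hf1, hf2⟩
      have h0 : ∀ x, φ (f x) = 0 := fun x => congrFun hf0 x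
      choose f' hf' using fun x => (hker (f x)).1 (h0 x)
      have hff : (i.compLeft G) f' = f := funext hf'
      refine ⟨f', ⟨?_, fun a b => ?_⟩, hff⟩
      · intro s
        have h2 : f' ⁻¹' s = f ⁻¹' (i '' s) := by
          ext x
          simp only [Set.mem_preimage, Set.mem_image]
          constructor
          · intro hx
            exact ⟨f' x, hx, hf' x⟩
          · rintro ⟨y, hy, hyx⟩
            have : y = f' x := hi (hyx.trans (hf' x).symm)
            exact this ▸ hy
        rw [h2]
        exact hf1 _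
      · apply hi
        have h3 := hf2 a b
        simp only [d1] at h3 ⊢
        rw [map_add, map_sub, map_zero, hig, hf', hf', hf']
        exact h3
    · rintro ⟨f', ⟨hf1, hf2⟩, rfl⟩
      refine ⟨?_, hf1.comp i, fun a b => ?_⟩
      · change (φ.compLeft G) ((i.compLeft G) f') = 0
        funext x
        exact (hker _).2 ⟨f' x, rfl⟩
      · have h3 := congrArg i (hf2 a b)
        simp only [d1] at h3
        rw [map_add, map_sub, map_zero, hig] at h3
        exact h3
  have hle1 : (Z1 G A').map (i.compLeft G) ≤ Z1 G A := by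
    rw [← hkerZ]
    exact inf_le_right
  have hr : ((Z1 G A').map (i.compLeft G)).relIndex (Z1 G A)
      = Nat.card ((Z1 G A).map (φ.compLeft G)) := by
    rw [← hkerZ, AddSubgroup.inf_relIndex_right, AddSubgroup.relIndex_ker]
  have hBZ : B1 G A ≤ Z1 G A := by
    rintro f ⟨m, hm⟩
    refine ⟨?_, fun a b => ?_⟩
    · have h2 : f = (fun a : A => a - m) ∘ (fun g : G => g • m) := funext hm
      rw [h2]
      refine IsLocallyConstant.comp ?_ _
      rw [IsLocallyConstant.iff_exists_open]
      intro g
      refine ⟨(fun x : G => g⁻¹ * x) ⁻¹' {x : G | x • m = m},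
        (hsm m).preimage (continuous_const_mul g⁻¹), ?_, ?_⟩
      · change (g⁻¹ * g) • m = m
        rw [inv_mul_cancel, one_smul]
      · intro x hx
        have h3 : (g⁻¹ * x) • m = m := hx
        rw [mul_smul, inv_smul_eq_iff] at h3
        exact h3
    · simp only [d1, hm, smul_sub, mul_smul]
      abel
  have hB : B1 G A ≤ (Z1 G A').map (i.compLeft G) := by
    rw [← hkerZ]
    refine le_inf ?_ hBZ
    rintro f ⟨m, hm⟩
    change (φ.compLeft G) f = 0
    funext x
    change φ (f x) = 0
    rw [hm x, map_sub, hφg, sub_self]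
  have hB' : (B1 G A').map (i.compLeft G) ≤ B1 G A := by
    rintro _ ⟨f, ⟨m, hm⟩, rfl⟩
    refine ⟨i m, fun g => ?_⟩
    change i (f g) = _
    rw [hm g, map_sub, hig]
  have hcard : Nat.card A = p * Nat.card A' := by
    have h2 := AddSubgroup.card_mul_index φ.ker
    have h3 : φ.ker = i.range := by
      ext a
      exact hker a
    have h4 : Nat.card φ.range = p := by
      rw [AddMonoidHom.range_eq_top.mpr hφ]
      have h5 : Nat.card (⊤ : AddSubgroup (Fp p)) = Nat.card (Fp p) :=
        Nat.card_congr (Equiv.Set.univ _)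
      rw [h5]
      exact Nat.card_zmod p
    rw [AddSubgroup.index_ker, h4, h3] at h2
    have h6 : Nat.card i.range = Nat.card A' :=
      (Nat.card_congr (AddMonoidHom.ofInjective hi).toEquiv).symm
    rw [h6] at h2
    rw [← h2, mul_comm]
  have h7 := E1R_card (G := G) A
  have h8 := E1R_card (G := G) A'
  have h9 : Nat.card ((B1 G A').map (i.compLeft G)) = Nat.card (B1 G A') :=
    (Nat.card_congr ((B1 G A').equivMapOfInjective _ hI).toEquiv).symm
  have h10 : Nat.card (B1 G A') * ((B1 G A').map (i.compLeft G)).relIndex (B1 G A)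
      = Nat.card (B1 G A) := by
    have h11 := AddSubgroup.relIndex_mul_relIndex ⊥ _ _ bot_le hB'
    rw [AddSubgroup.relIndex_bot_left, AddSubgroup.relIndex_bot_left, h9] at h11
    exact h11
  have h12 : Nat.card (B1 G A') ≠ 0 := by
    intro h0
    rw [h0, zero_mul] at h8
    exact (Nat.card_pos (α := A')).ne h8
  have h13 : ((B1 G A').map (i.compLeft G)).relIndex (B1 G A) * h0 G A = p * h0 G A' := by
    apply Nat.eq_of_mul_eq_mul_left (Nat.pos_of_ne_zero h12)
    calc Nat.card (B1 G A') * (((B1 G A').map (i.compLeft G)).relIndex (B1 G A) * h0 G A)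
        = (Nat.card (B1 G A') * ((B1 G A').map (i.compLeft G)).relIndex (B1 G A)) * h0 G A := by
          ring
      _ = p * (Nat.card (B1 G A') * h0 G A') := by rw [h10, h7, hcard, h8]
      _ = Nat.card (B1 G A') * (p * h0 G A') := by ring
  have h14 : h1 G A = (B1 G A).relIndex ((Z1 G A').map (i.compLeft G))
      * Nat.card ((Z1 G A).map (φ.compLeft G)) := by
    rw [h1, ← AddSubgroup.relIndex_mul_relIndex _ _ _ hB hle1, hr]
  have h15 : h1 G A' = ((B1 G A').map (i.compLeft G)).relIndex (B1 G A)
      * (B1 G A).relIndex ((Z1 G A').map (i.compLeft G)) := by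
    rw [h1, AddSubgroup.relIndex_mul_relIndex _ _ _ hB' hB,
      AddSubgroup.relIndex_map_map_of_injective _ _ hI]
  rw [← h13, h14, h15]
  ring

end E1R

end Pool.Agent.PP2
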