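import Pool.Agent.helper96.PP2.SpecA

/-!
# Row pg:E2R: degree two part of the long exact sequence
-/

namespace Pool.Agent.PP2

section E2R

/-! ### Indices and homomorphisms -/

theorem E2R_gen {X Y : Type} [AddCommGroup X] [AddCommGroup Y] (f : X →+ Y)
    (N M : AddSubgroup X) (h : N ≤ M) :
    N.relIndex M = N.relIndex (f.ker ⊓ M) * (N.map f).relIndex (M.map f) := by
  have h1 : (N.map f).relIndex (M.map f) = (N ⊔ (f.ker ⊓ M)).relIndex M := by
    rw [AddSubgroup.relIndex_map_map]
    have h2 : M ⊔ f.ker = M ⊔ (N ⊔ f.ker) := by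
      rw [← sup_assoc, sup_eq_left.mpr h]
    rw [h2, AddSubgroup.relIndex_sup_right, ← AddSubgroup.inf_relIndex_right,
      sup_inf_assoc_of_le _ h]
  rw [h1]
  have h3 : N.relIndex (f.ker ⊓ M) = N.relIndex (N ⊔ (f.ker ⊓ M)) :=
    (AddSubgroup.relIndex_sup_left _ _).symm
  rw [h3, AddSubgroup.relIndex_mul_relIndex _ _ _ le_sup_left (sup_le h inf_le_right)]

theorem E2R_gen' {X Y : Type} [AddCommGroup X] [AddCommGroup Y] (f : X →+ Y)
    (N M : AddSubgroup X) (h : N ≤ M) (hk : f.ker ⊓ M ≤ N) :
    N.relIndex M = (N.map f).relIndex (M.map f) := by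
  rw [E2R_gen f N M h, AddSubgroup.relIndex_eq_one.mpr hk, one_mul]

/-! ### Locally constant functions -/

theorem E2R_smul {G A X : Type} [Group G] [TopologicalSpace G] [IsTopologicalGroup G]
    [AddCommGroup A] [DistribMulAction G A] [TopologicalSpace X] (hs : Smooth G A)
    (g : X → G) (u : X → A) (hg : Continuous g) (hu : IsLocallyConstant u) :
    IsLocallyConstant (fun x => g x • u x) := by
  rw [IsLocallyConstant.iff_exists_open]
  intro x
  refine ⟨(u ⁻¹' {u x}) ∩ ((fun y => (g x)⁻¹ * g y) ⁻¹' {k : G | k • u x = u x}),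
    (hu _).inter ((hs (u x)).preimage (continuous_const.mul hg)), ⟨rfl, ?_⟩, ?_⟩
  · change ((g x)⁻¹ * g x) • u x = u x
    rw [inv_mul_cancel, one_smul]
  · rintro y ⟨hy1, hy2⟩
    have h1 : u y = u x := hy1
    have h2 : ((g x)⁻¹ * g y) • u x = u x := hy2
    rw [mul_smul, inv_smul_eq_iff] at h2
    change g y • u y = g x • u x
    rw [h1, h2]

theorem E2R_inj {A' A X : Type} [TopologicalSpace X] (i : A' → A) (hi : Function.Injective i)
    (f : X → A') (hf : IsLocallyConstant (fun x => i (f x))) : IsLocallyConstant f := by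
  rw [IsLocallyConstant.iff_exists_open] at hf ⊢
  intro x
  obtain ⟨U, h1, h2, h3⟩ := hf x
  exact ⟨U, h1, h2, fun y hy => hi (h3 y hy)⟩

theorem E2R_comp {X Y A : Type} [TopologicalSpace X] [TopologicalSpace Y] (u : Y → A)
    (hu : IsLocallyConstant u) (g : X → Y) (hg : Continuous g) :
    IsLocallyConstant (fun x => u (g x)) := hu.comp_continuous hg

theorem E2R_lc_d1 {G A : Type} [Group G] [TopologicalSpace G] [IsTopologicalGroup G]
    [AddCommGroup A] [DistribMulAction G A] (hs : Smooth G A) (h : G → A)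
    (hh : IsLocallyConstant h) : LC2 (d1 h) := by
  unfold LC2 d1
  have h1 : IsLocallyConstant (fun x : G × G => x.1 • h x.2) :=
    E2R_smul hs _ _ continuous_fst (E2R_comp h hh _ continuous_snd)
  have h2 : IsLocallyConstant (fun x : G × G => h (x.1 * x.2)) :=
    E2R_comp h hh _ (continuous_fst.mul continuous_snd)
  have h3 : IsLocallyConstant (fun x : G × G => h x.1) :=
    E2R_comp h hh _ continuous_fst
  exact (h1.sub h2).add h3

theorem E2R_lc_d2 {G A : Type} [Group G] [TopologicalSpace G] [IsTopologicalGroup G]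
    [AddCommGroup A] [DistribMulAction G A] (hs : Smooth G A) (c : G → G → A)
    (hc : LC2 c) : LC3 (d2 c) := by
  unfold LC3 d2
  have h1 : IsLocallyConstant (fun x : G × G × G => x.1 • c x.2.1 x.2.2) :=
    E2R_smul hs _ _ continuous_fst
      (E2R_comp (fun y : G × G => c y.1 y.2) hc (fun x : G × G × G => (x.2.1, x.2.2))
        (by fun_prop))
  have h2 : IsLocallyConstant (fun x : G × G × G => c (x.1 * x.2.1) x.2.2) :=
    E2R_comp (fun y : G × G => c y.1 y.2) hc (fun x : G × G × G => (x.1 * x.2.1, x.2.2))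
      (by fun_prop)
  have h3 : IsLocallyConstant (fun x : G × G × G => c x.1 (x.2.1 * x.2.2)) :=
    E2R_comp (fun y : G × G => c y.1 y.2) hc (fun x : G × G × G => (x.1, x.2.1 * x.2.2))
      (by fun_prop)
  have h4 : IsLocallyConstant (fun x : G × G × G => c x.1 x.2.1) :=
    E2R_comp (fun y : G × G => c y.1 y.2) hc (fun x : G × G × G => (x.1, x.2.1))
      (by fun_prop)
  exact ((h1.sub h2).add h3).sub h4

theorem E2R_d2_d1 {G A : Type} [Group G] [AddCommGroup A] [DistribMulAction G A] (h : G → A)
    (a b c : G) : d2 (d1 h) a b c = 0 := by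
  simp only [d2, d1, smul_add, smul_sub, mul_assoc, mul_smul]
  abel

theorem E2R_d3_d2 {G A : Type} [Group G] [AddCommGroup A] [DistribMulAction G A]
    (h : G → G → A) (a b c d : G) : d3 (d2 h) a b c d = 0 := by
  simp only [d2, d3, smul_add, smul_sub, mul_assoc, mul_smul]
  abel

theorem E2R_B2_le {G A : Type} [Group G] [TopologicalSpace G] [IsTopologicalGroup G]
    [AddCommGroup A] [DistribMulAction G A] (hs : Smooth G A) : B2 G A ≤ Z2 G A := by
  rintro f ⟨h, hh, hf⟩
  have hfe : f = d1 h := by
    funext a b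
    exact hf a b
  rw [hfe]
  exact ⟨E2R_lc_d1 hs h hh, fun a b c => E2R_d2_d1 h a b c⟩

/-- The first coboundary as a homomorphism. -/
def E2R_D (G : Type) [Group G] (A : Type) [AddCommGroup A] [DistribMulAction G A] :
    (G → A) →+ (G → G → A) where
  toFun h := d1 h
  map_zero' := by
    funext a b
    simp [d1]
  map_add' h k := by
    funext a b
    simp only [d1, Pi.add_apply, smul_add]
    abel

theorem E2R_row : E2R_stmt := by
  intro p G _ _ _ _ A' A _ _ _ _ i φ hp hH3 hfin hcard hs hi hφ hig hφg hker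
  have hfin' : Finite A' := Finite.of_injective i hi
  have hs' : Smooth G A' := by
    intro a'
    have h1 : {g : G | g • a' = a'} = {g : G | g • i a' = i a'} := by
      ext g
      change g • a' = a' ↔ g • i a' = i a'
      rw [← hig]
      exact hi.eq_iff.symm
    rw [h1]
    exact hs _
  have hφ1 : ∀ (h : G → A) (a b : G), φ (d1 h a b) = d1 (fun x => φ (h x)) a b := by
    intro h a b
    simp only [d1]
    rw [map_add, map_sub, hφg]
    rfl
  have hφ2 : ∀ (h : G → G → A) (a b c : G),
      φ (d2 h a b c) = d2 (fun x y => φ (h x y)) a b c := by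
    intro h a b c
    simp only [d2]
    rw [map_sub, map_add, map_sub, hφg]
    rfl
  have hi1 : ∀ (h : G → A') (a b : G), i (d1 h a b) = d1 (fun x => i (h x)) a b := by
    intro h a b
    simp only [d1]
    rw [map_add, map_sub, hig]
  have hi2 : ∀ (h : G → G → A') (a b c : G),
      i (d2 h a b c) = d2 (fun x y => i (h x y)) a b c := by
    intro h a b c
    simp only [d2]
    rw [map_sub, map_add, map_sub, hig]
  have hi3 : ∀ (h : G → G → G → A') (a b c d : G),
      i (d3 h a b c d) = d3 (fun x y z => i (h x y z)) a b c d := by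
    intro h a b c d
    simp only [d3]
    rw [map_add, map_sub, map_add, map_sub, hig]
  obtain ⟨sec, hsec⟩ := hφ.hasRightInverse
  -- the four maps
  let Φ1 : (G → A) →+ (G → Fp p) := φ.compLeft G
  let Φ2 : (G → G → A) →+ (G → G → Fp p) := Φ1.compLeft G
  let I1 : (G → A') →+ (G → A) := i.compLeft G
  let I2 : (G → G → A') →+ (G → G → A) := I1.compLeft G
  have hI2 : Function.Injective I2 := by
    intro f g h
    funext x y
    exact hi (congrFun (congrFun h x) y)
  -- (1)
  have s1 : (Z2 G A).map Φ2 = Z2 G (Fp p) := by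
    apply le_antisymm
    · rintro _ ⟨f, ⟨hf1, hf2⟩, rfl⟩
      refine ⟨IsLocallyConstant.comp hf1 φ, fun a b c => ?_⟩
      have h1 := hφ2 f a b c
      rw [hf2, map_zero] at h1
      exact h1.symm
    · rintro z ⟨hz1, hz2⟩
      let c : G → G → A := fun x y => sec (z x y)
      have hc : LC2 c := IsLocallyConstant.comp hz1 sec
      have hc1 : ∀ x y z, φ (d2 c x y z) = 0 := by
        intro x y w
        rw [hφ2]
        have h2 : (fun x y => φ (c x y)) = z := by
          funext x y
          exact hsec _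
        rw [h2, hz2]
      choose e he using fun x y w => (hker _).1 (hc1 x y w)
      have he' : (fun x y w => i (e x y w)) = d2 c := by
        funext x y w
        exact he x y w
      obtain ⟨h, hh1, hh2⟩ := hH3 A' hfin' hcard hs' e
        (E2R_inj i hi (fun x : G × G × G => e x.1 x.2.1 x.2.2) (by
          have h4 : (fun x : G × G × G => i (e x.1 x.2.1 x.2.2))
              = fun x : G × G × G => d2 c x.1 x.2.1 x.2.2 := by
            funext x
            exact he _ _ _
          rw [h4]
          exact E2R_lc_d2 hs c hc))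
        (fun x y w v => hi (by rw [hi3, map_zero, he', E2R_d3_d2]))
      refine ⟨c - I2 h, ⟨?_, ?_⟩, ?_⟩
      · exact IsLocallyConstant.sub hc (IsLocallyConstant.comp hh1 i)
      · intro x y w
        have h5 : d2 (c - I2 h) x y w = d2 c x y w - d2 (fun x y => i (h x y)) x y w := by
          change x • (c y w - i (h y w)) - (c (x * y) w - i (h (x * y) w))
            + (c x (y * w) - i (h x (y * w))) - (c x y - i (h x y)) = _
          simp only [d2, smul_sub]
          abel
        rw [h5, ← hi2, ← hh2, he, sub_self]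
      · rw [map_sub]
        funext x y
        change φ (c x y) - φ (i (h x y)) = z x y
        rw [(hker _).2 ⟨_, rfl⟩, sub_zero]
        exact hsec _
  -- (2)
  have s2 : (B2 G A).map Φ2 = B2 G (Fp p) := by
    apply le_antisymm
    · rintro _ ⟨f, ⟨h, hh1, hh2⟩, rfl⟩
      refine ⟨fun x => φ (h x), hh1.comp φ, fun a b => ?_⟩
      rw [← hφ1, ← hh2]
      rfl
    · rintro z ⟨h, hh1, hh2⟩
      refine ⟨d1 (fun x => sec (h x)), ⟨_, hh1.comp sec, fun a b => rfl⟩, ?_⟩
      funext x y
      change φ (d1 (fun x => sec (h x)) x y) = z x y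
      rw [hφ1, hh2]
      have h2 : (fun x => φ (sec (h x))) = h := by
        funext x
        exact hsec _
      rw [h2]
  -- (3)
  have s3 : Φ2.ker ⊓ Z2 G A = (Z2 G A').map I2 := by
    apply le_antisymm
    · rintro f ⟨hf0, hf1, hf2⟩
      have h0 : ∀ x y, φ (f x y) = 0 := fun x y => congrFun (congrFun hf0 x) y
      choose f' hf' using fun x y => (hker (f x y)).1 (h0 x y)
      have hff : I2 f' = f := by
        funext x y
        exact hf' x y
      refine ⟨f', ⟨?_, fun a b c => ?_⟩, hff⟩
      · refine E2R_inj i hi (fun x : G × G => f' x.1 x.2) ?_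
        have h4 : (fun x : G × G => i (f' x.1 x.2)) = fun x : G × G => f x.1 x.2 := by
          funext x
          exact hf' _ _
        rw [h4]
        exact hf1
      · apply hi
        rw [hi2, map_zero]
        have h4 : (fun x y => i (f' x y)) = f := hff
        rw [h4]
        exact hf2 a b c
    · rintro _ ⟨f', ⟨hf1, hf2⟩, rfl⟩
      refine ⟨?_, IsLocallyConstant.comp hf1 i, fun a b c => ?_⟩
      · funext x y
        exact (hker _).2 ⟨f' x y, rfl⟩
      · have h4 : I2 f' = fun x y => i (f' x y) := rfl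
        rw [h4, ← hi2, hf2, map_zero]
  -- cochains
  let LC : AddSubgroup (G → A) :=
    { carrier := {f | IsLocallyConstant f}
      zero_mem' := IsLocallyConstant.const 0
      add_mem' := fun hf hg => hf.add hg
      neg_mem' := fun hf => hf.neg }
  let LC' : AddSubgroup (G → A') :=
    { carrier := {f | IsLocallyConstant f}
      zero_mem' := IsLocallyConstant.const 0
      add_mem' := fun hf hg => hf.add hg
      neg_mem' := fun hf => hf.neg }
  let C : AddSubgroup (G → A) := LC ⊓ (Z1 G (Fp p)).comap Φ1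
  let C0 : AddSubgroup (G → A) := LC'.map I1 ⊔ Z1 G A
  have hZC : Z1 G A ≤ C := by
    rintro f ⟨hf1, hf2⟩
    refine ⟨hf1, hf1.comp φ, fun a b => ?_⟩
    have h1 := hφ1 f a b
    rw [hf2, map_zero] at h1
    exact h1.symm
  have hLC : LC'.map I1 ≤ C := by
    rintro _ ⟨f, hf, rfl⟩
    refine ⟨IsLocallyConstant.comp hf i, ?_⟩
    change Φ1 (I1 f) ∈ Z1 G (Fp p)
    have h1 : Φ1 (I1 f) = 0 := by
      funext x
      exact (hker _).2 ⟨f x, rfl⟩
    rw [h1]
    exact zero_mem _
  have hC0 : C0 ≤ C := sup_le hLC hZC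
  -- first computation of the index
  have t1 : C0.relIndex C = ((Z1 G A).map Φ1).relIndex (Z1 G (Fp p)) := by
    rw [E2R_gen' Φ1 C0 C hC0]
    · congr 1
      · rw [AddSubgroup.map_sup]
        have h1 : (LC'.map I1).map Φ1 = ⊥ := by
          rw [eq_bot_iff]
          rintro _ ⟨_, ⟨f, hf, rfl⟩, rfl⟩
          rw [AddSubgroup.mem_bot]
          funext x
          exact (hker _).2 ⟨f x, rfl⟩
        rw [h1, bot_sup_eq]
      · apply le_antisymm
        · rintro _ ⟨f, hf, rfl⟩
          exact hf.2
        · rintro z hz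
          have h2 : Φ1 (fun x => sec (z x)) = z := by
            funext x
            exact hsec _
          refine ⟨fun x => sec (z x), ⟨IsLocallyConstant.comp hz.1 sec, ?_⟩, h2⟩
          change Φ1 (fun x => sec (z x)) ∈ Z1 G (Fp p)
          rw [h2]
          exact hz
    · rintro f ⟨hf0, hf1, hf2⟩
      apply AddSubgroup.mem_sup_left
      have h0 : ∀ x, φ (f x) = 0 := fun x => congrFun hf0 x
      choose f' hf' using fun x => (hker (f x)).1 (h0 x)
      refine ⟨f', ?_, funext hf'⟩
      refine E2R_inj i hi f' ?_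
      have h4 : (fun x => i (f' x)) = f := funext hf'
      rw [h4]
      exact hf1
  -- second computation
  have t2 : C0.relIndex C = ((B2 G A').map I2).relIndex (B2 G A ⊓ (Z2 G A').map I2) := by
    rw [E2R_gen' (E2R_D G A) C0 C hC0]
    · congr 1
      · rw [AddSubgroup.map_sup]
        have h1 : (Z1 G A).map (E2R_D G A) = ⊥ := by
          rw [eq_bot_iff]
          rintro _ ⟨f, ⟨hf1, hf2⟩, rfl⟩
          rw [AddSubgroup.mem_bot]
          funext x y
          exact hf2 x y
        rw [h1, sup_bot_eq]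
        apply le_antisymm
        · rintro _ ⟨_, ⟨f, hf, rfl⟩, rfl⟩
          refine ⟨d1 f, ⟨f, hf, fun a b => rfl⟩, ?_⟩
          funext x y
          exact hi1 f x y
        · rintro _ ⟨z, ⟨f, hf, hz⟩, rfl⟩
          refine ⟨I1 f, ⟨f, hf, rfl⟩, ?_⟩
          funext x y
          change d1 (fun x => i (f x)) x y = i (z x y)
          rw [hz, hi1]
      · rw [← s3]
        apply le_antisymm
        · rintro _ ⟨f, ⟨hf1, hf2⟩, rfl⟩
          have h5 : (E2R_D G A) f ∈ B2 G A := ⟨f, hf1, fun a b => rfl⟩
          refine ⟨h5, ?_, E2R_B2_le hs h5⟩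
          funext x y
          change φ (d1 f x y) = 0
          rw [hφ1]
          exact hf2.2 x y
        · rintro z ⟨⟨f, hf, hz⟩, hz0, -⟩
          have hzf : (E2R_D G A) f = z := by
            funext x y
            exact (hz x y).symm
          refine ⟨f, ⟨hf, IsLocallyConstant.comp hf φ, fun a b => ?_⟩, hzf⟩
          have h6 : φ (z a b) = 0 := congrFun (congrFun hz0 a) b
          rw [hz, hφ1] at h6
          exact h6
    · rintro f ⟨hf0, hf1, hf2⟩
      apply AddSubgroup.mem_sup_right
      exact ⟨hf1, fun a b => congrFun (congrFun hf0 a) b⟩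
  have hle : (B2 G A').map I2 ≤ B2 G A ⊓ (Z2 G A').map I2 := by
    refine le_inf ?_ (AddSubgroup.map_mono (E2R_B2_le hs'))
    rintro _ ⟨z, ⟨f, hf, hz⟩, rfl⟩
    refine ⟨fun x => i (f x), hf.comp i, fun a b => ?_⟩
    change i (z a b) = _
    rw [hz, hi1]
  have t3 : h2 G A' = ((Z1 G A).map Φ1).relIndex (Z1 G (Fp p))
      * (B2 G A).relIndex ((Z2 G A').map I2) := by
    rw [← t1, t2, h2, ← AddSubgroup.relIndex_map_map_of_injective _ _ hI2,
      ← AddSubgroup.relIndex_mul_relIndex _ _ _ hle inf_le_right,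
      AddSubgroup.inf_relIndex_right]
  have t4 : h2 G A = (B2 G A).relIndex ((Z2 G A').map I2) * h2 G (Fp p) := by
    rw [h2, h2, E2R_gen Φ2 _ _ (E2R_B2_le hs), s3, s1, s2]
  rw [t3, t4]
  ring

end E2R

end Pool.Agent.PP2
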