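import Pool.Agent.helper96.PP2.SpecB

/-!
# Row pg:LSM: the entries of the elements of the descending sequence are small
-/

namespace Pool.Agent.PP2

open Topology Matrix

section LSM

variable {R : Type} [CommRing R] [TopologicalSpace R] [IsTopologicalRing R]

/-- Matrices with entries in an ideal. -/
def LSM_ent (K : Ideal R) : AddSubgroup (M2 R) where
  carrier := {X | ∀ i j, X i j ∈ K}
  zero_mem' := fun _ _ => K.zero_mem
  add_mem' := fun ha hb i j => K.add_mem (ha i j) (hb i j)
  neg_mem' := fun ha i j => K.neg_mem (ha i j)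

omit [IsTopologicalRing R] in
theorem LSM_closed (K : Ideal R) (hK : IsClosed (K : Set R)) :
    IsClosed (LSM_ent K : Set (M2 R)) := by
  have h : (LSM_ent K : Set (M2 R)) = ⋂ i, ⋂ j, {X : M2 R | X i j ∈ K} := by
    ext X
    simp only [Set.mem_iInter]
    rfl
  rw [h]
  refine isClosed_iInter fun i => isClosed_iInter fun j => ?_
  have hc : Continuous fun X : M2 R => X i j := continuous_apply_apply i j
  exact hK.preimage hc

theorem LSM_row : LSM_stmt := by
  intro p R _ _ _ _ _ _ J hp hp2 hS Γ hΓ I hI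
  obtain ⟨n, hn⟩ := hS.nil I hI
  have hclosed : ∀ m : ℕ, IsClosed ((J ^ (m + 1) ⊔ I : Ideal R) : Set R) := by
    intro m
    have h1 : IsOpen (((J ^ (m + 1) ⊔ I : Ideal R).toAddSubgroup : AddSubgroup R) : Set R) :=
      AddSubgroup.isOpen_mono (H₁ := I.toAddSubgroup)
        (show I.toAddSubgroup ≤ (J ^ (m + 1) ⊔ I : Ideal R).toAddSubgroup from
          fun x hx => (le_sup_right : I ≤ J ^ (m + 1) ⊔ I) hx) hI
    exact AddSubgroup.isClosed_of_isOpen _ h1
  have key : ∀ m : ℕ, Lc Γ m ≤ LSM_ent (J ^ (m + 1) ⊔ I) := by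
    have h0 : LL Γ ≤ LSM_ent (J ^ 1 ⊔ I) := by
      refine AddSubgroup.topologicalClosure_minimal _ ?_ (LSM_closed _ (hclosed 0))
      rw [AddSubgroup.closure_le]
      rintro _ ⟨g, hg, rfl⟩ i j
      have h2 := Lib_TH_ent J g (hΓ hg) i j
      rw [pow_one]
      exact (le_sup_left : J ≤ J ⊔ I) h2
    intro m
    induction m with
    | zero => exact h0
    | succ m ih =>
      refine AddSubgroup.topologicalClosure_minimal _ ?_ (LSM_closed _ (hclosed (m + 1)))
      rw [AddSubgroup.closure_le]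
      rintro _ ⟨X, hX, Y, hY, rfl⟩ i j
      have hX' := h0 hX
      have hY' := ih hY
      have hmul : ∀ x ∈ (J ^ 1 ⊔ I : Ideal R), ∀ y ∈ (J ^ (m + 1) ⊔ I : Ideal R),
          x * y ∈ (J ^ (m + 1 + 1) ⊔ I : Ideal R) := by
        intro x hx y hy
        have h3 : x * y ∈ (J ^ 1 ⊔ I) * (J ^ (m + 1) ⊔ I) := Ideal.mul_mem_mul hx hy
        have h4 : (J ^ 1 ⊔ I) * (J ^ (m + 1) ⊔ I) ≤ J ^ (m + 1 + 1) ⊔ I := by
          rw [Ideal.sup_mul, Ideal.mul_sup, Ideal.mul_sup]
          refine sup_le (sup_le ?_ ?_) (sup_le ?_ ?_)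
          · rw [← pow_add, add_comm 1 (m + 1)]
            exact le_sup_left
          · exact Ideal.mul_le_right.trans le_sup_right
          · exact Ideal.mul_le_left.trans le_sup_right
          · exact Ideal.mul_le_left.trans le_sup_right
        exact h4 h3
      simp only [Br, Matrix.sub_apply, Matrix.mul_apply, Fin.sum_univ_two]
      refine Ideal.sub_mem _ (Ideal.add_mem _ ?_ ?_) (Ideal.add_mem _ ?_ ?_)
      · exact hmul _ (hX' _ _) _ (hY' _ _)
      · exact hmul _ (hX' _ _) _ (hY' _ _)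
      · rw [mul_comm]
        exact hmul _ (hX' _ _) _ (hY' _ _)
      · rw [mul_comm]
        exact hmul _ (hX' _ _) _ (hY' _ _)
  refine ⟨n, fun X hX i j => ?_⟩
  have h5 := key n hX i j
  have h6 : J ^ (n + 1) ⊔ I ≤ I := sup_le ((Ideal.pow_le_pow_right (Nat.le_succ n)).trans hn) le_rfl
  exact h6 h5

end LSM

end Pool.Agent.PP2
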